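import Pool.Agent.TH612.GS.Stm3

set_option autoImplicit false

namespace Pool.Agent.TH751.GF

open Complex MeasureTheory

noncomputable section

/-- the harmonic sum on one side -/
theorem har (M : ℕ) (hM : 1 ≤ M) :
    ∑ j ∈ Finset.Icc 1 M, ((j : ℝ))⁻¹ ≤ 2 * Real.log (2 * M) := by
  have h1 : (harmonic M : ℝ) ≤ 1 + Real.log M := harmonic_le_one_add_log M
  have h2 : (harmonic M : ℝ) = ∑ j ∈ Finset.Icc 1 M, ((j : ℝ))⁻¹ := by
    rw [harmonic_eq_sum_Icc]
    push_cast
    rfl
  rw [← h2]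
  have hM' : (1 : ℝ) ≤ M := by exact_mod_cast hM
  have h3 : Real.log (2 * M) = Real.log 2 + Real.log M :=
    Real.log_mul (by norm_num) (by positivity)
  have h4 : 0 ≤ Real.log M := Real.log_nonneg hM'
  have h5 := Real.log_two_gt_d9
  rw [h3]
  linarith

/-- the sum over one row -/
theorem row (M m : ℕ) (hM : 1 ≤ M) (hm : m ∈ Finset.Icc M (2 * M)) :
    ∑ n ∈ Finset.Icc M (2 * M), (if m = n then (0 : ℝ) else |(m : ℝ) - n|⁻¹) ≤
      4 * Real.log (2 * M) := by
  have hm' := Finset.mem_Icc.1 hm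
  have h1 : ∀ n ∈ Finset.Icc M (2 * M), (if m = n then (0 : ℝ) else |(m : ℝ) - n|⁻¹) =
      (if n < m then (((m - n : ℕ) : ℝ))⁻¹ else 0) + (if m < n then (((n - m : ℕ) : ℝ))⁻¹ else 0) := by
    intro n hn
    rcases lt_trichotomy m n with h | h | h
    · rw [if_neg (by omega), if_neg (by omega), if_pos h, zero_add, Nat.cast_sub h.le,
        abs_sub_comm, abs_of_pos]
      have : (m : ℝ) < n := by exact_mod_cast h
      linarith
    · subst h
      simp
    · rw [if_neg (by omega), if_pos h, if_neg (by omega), add_zero, Nat.cast_sub h.le, abs_of_pos]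
      have : (n : ℝ) < m := by exact_mod_cast h
      linarith
  rw [Finset.sum_congr rfl h1, Finset.sum_add_distrib, ← Finset.sum_filter, ← Finset.sum_filter]
  have hnn : ∀ j : ℕ, (0 : ℝ) ≤ ((j : ℝ))⁻¹ := fun j => by positivity
  have h2 : ∑ n ∈ (Finset.Icc M (2 * M)).filter (fun n => n < m), (((m - n : ℕ) : ℝ))⁻¹ ≤
      ∑ j ∈ Finset.Icc 1 M, ((j : ℝ))⁻¹ := by
    have hi : Set.InjOn (fun n => m - n) (((Finset.Icc M (2 * M)).filter (fun n => n < m) :
        Finset ℕ) : Set ℕ) := by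
      intro x hx y hy hxy
      simp only [Finset.coe_filter, Finset.mem_Icc, Set.mem_ofPred_eq] at hx hy hxy
      omega
    rw [← Finset.sum_image (f := fun j : ℕ => ((j : ℝ))⁻¹) (g := fun n => m - n) hi]
    refine Finset.sum_le_sum_of_subset_of_nonneg ?_ (fun j _ _ => hnn j)
    intro j hj
    simp only [Finset.mem_image, Finset.mem_filter, Finset.mem_Icc] at hj ⊢
    obtain ⟨n, hn, rfl⟩ := hj
    omega
  have h3 : ∑ n ∈ (Finset.Icc M (2 * M)).filter (fun n => m < n), (((n - m : ℕ) : ℝ))⁻¹ ≤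
      ∑ j ∈ Finset.Icc 1 M, ((j : ℝ))⁻¹ := by
    have hi : Set.InjOn (fun n => n - m) (((Finset.Icc M (2 * M)).filter (fun n => m < n) :
        Finset ℕ) : Set ℕ) := by
      intro x hx y hy hxy
      simp only [Finset.coe_filter, Finset.mem_Icc, Set.mem_ofPred_eq] at hx hy hxy
      omega
    rw [← Finset.sum_image (f := fun j : ℕ => ((j : ℝ))⁻¹) (g := fun n => n - m) hi]
    refine Finset.sum_le_sum_of_subset_of_nonneg ?_ (fun j _ _ => hnn j)
    intro j hj
    simp only [Finset.mem_image, Finset.mem_filter, Finset.mem_Icc] at hj ⊢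
    obtain ⟨n, hn, rfl⟩ := hj
    omega
  have h4 := har M hM
  linarith

/-- an oscillating integral -/
theorem osc (a b θ : ℝ) (hθ : θ ≠ 0) :
    ‖∫ t in a..b, Complex.exp (I * θ * (t : ℂ))‖ ≤ 2 / |θ| := by
  have hc : (I * θ : ℂ) ≠ 0 := mul_ne_zero I_ne_zero (by exact_mod_cast hθ)
  rw [integral_exp_mul_complex hc, norm_div, norm_mul, norm_I, one_mul, Complex.norm_real,
    Real.norm_eq_abs]
  have h0 : 0 < |θ| := abs_pos.2 hθ
  refine div_le_div_of_nonneg_right ?_ h0.le
  refine (norm_sub_le _ _).trans ?_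
  have h1 : ∀ x : ℝ, ‖Complex.exp (I * θ * (x : ℂ))‖ = 1 := by
    intro x
    rw [show (I * θ * (x : ℂ)) = ((θ * x : ℝ) : ℂ) * I by push_cast; ring]
    exact Complex.norm_exp_ofReal_mul_I _
  rw [h1, h1]
  norm_num

/-- spacing of the logarithms in a dyadic block -/
theorem gap (M m n : ℕ) (hM : 1 ≤ M) (hm : m ∈ Finset.Icc M (2 * M))
    (hn : n ∈ Finset.Icc M (2 * M)) (hmn : m ≠ n) :
    Real.log m - Real.log n ≠ 0 ∧
      2 / |Real.log m - Real.log n| ≤ 4 * M * |(m : ℝ) - n|⁻¹ := by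
  have key : ∀ p q : ℕ, p ∈ Finset.Icc M (2 * M) → q ∈ Finset.Icc M (2 * M) → q < p →
      0 < ((p : ℝ) - q) / (2 * M) ∧ ((p : ℝ) - q) / (2 * M) ≤ Real.log p - Real.log q := by
    intro p q hp hq hpq
    rw [Finset.mem_Icc] at hp hq
    have hM0 : (1 : ℝ) ≤ M := by exact_mod_cast hM
    have hp0 : (M : ℝ) ≤ p := by exact_mod_cast hp.1
    have hp1 : (p : ℝ) ≤ 2 * M := by exact_mod_cast hp.2
    have hq0 : (M : ℝ) ≤ q := by exact_mod_cast hq.1
    have hpq' : (q : ℝ) < p := by exact_mod_cast hpq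
    have hpp : (0 : ℝ) < p := by linarith
    have hqq : (0 : ℝ) < q := by linarith
    refine ⟨div_pos (by linarith) (by linarith), ?_⟩
    have h1 : 1 - ((p : ℝ) / q)⁻¹ ≤ Real.log (p / q) :=
      Real.one_sub_inv_le_log_of_pos (div_pos hpp hqq)
    rw [Real.log_div hpp.ne' hqq.ne'] at h1
    refine le_trans ?_ h1
    rw [inv_div]
    have h2 : 1 - (q : ℝ) / p = ((p : ℝ) - q) / p := by field_simp
    rw [h2]
    exact div_le_div_of_nonneg_left (by linarith) hpp hp1
  have hM0 : (0 : ℝ) < M := by exact_mod_cast hM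
  have main : ∀ p q : ℕ, p ∈ Finset.Icc M (2 * M) → q ∈ Finset.Icc M (2 * M) → q < p →
      Real.log p - Real.log q ≠ 0 ∧
      2 / |Real.log p - Real.log q| ≤ 4 * M * |(p : ℝ) - q|⁻¹ := by
    intro p q hp hq hpq
    obtain ⟨h1, h2⟩ := key p q hp hq hpq
    have h3 : 0 < Real.log p - Real.log q := lt_of_lt_of_le h1 h2
    refine ⟨h3.ne', ?_⟩
    rw [abs_of_pos h3]
    have hpq' : (q : ℝ) < p := by exact_mod_cast hpq
    have h4 : (0 : ℝ) < (p : ℝ) - q := by linarith
    rw [abs_of_pos h4]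
    calc 2 / (Real.log p - Real.log q) ≤ 2 / (((p : ℝ) - q) / (2 * M)) :=
          div_le_div_of_nonneg_left (by norm_num) h1 h2
      _ = 4 * M * ((p : ℝ) - q)⁻¹ := by field_simp; norm_num
  rcases lt_or_gt_of_ne hmn with h | h
  · obtain ⟨h1, h2⟩ := main n m hn hm h
    refine ⟨?_, ?_⟩
    · intro h3
      apply h1
      linarith
    · rw [abs_sub_comm (Real.log m), abs_sub_comm (m : ℝ)]
      exact h2
  · exact main m n hm hn h

/-- the mean square of a sum over a dyadic block -/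
theorem msq (a b : ℝ) (M : ℕ) (hab : a ≤ b) (hM : 1 ≤ M) (c : ℕ → ℂ) :
    ∫ t in a..b, ‖∑ m ∈ Finset.Icc M (2 * M), c m * Complex.exp (I * Real.log m * (t : ℂ))‖ ^ 2 ≤
      ((b - a) + 16 * (M * Real.log (2 * M))) * ∑ m ∈ Finset.Icc M (2 * M), ‖c m‖ ^ 2 := by
  set s := Finset.Icc M (2 * M) with hs
  have hM0 : (0 : ℝ) < M := by exact_mod_cast hM
  -- the kernel
  set B : ℕ → ℕ → ℝ := fun m n => if m = n then (b - a) else 4 * M * |(m : ℝ) - n|⁻¹ with hB
  have hBsymm : ∀ m n, B m n = B n m := by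
    intro m n
    simp only [hB]
    by_cases h : m = n
    · rw [if_pos h, if_pos h.symm]
    · rw [if_neg h, if_neg (Ne.symm h), abs_sub_comm]
  have hBnn : ∀ m n, 0 ≤ B m n := by
    intro m n
    simp only [hB]
    split_ifs
    · linarith
    · positivity
  have hker : ∀ m ∈ s, ∀ n ∈ s,
      ‖∫ t in a..b, Complex.exp (I * (Real.log m - Real.log n : ℝ) * (t : ℂ))‖ ≤ B m n := by
    intro m hm n hn
    by_cases h : m = n
    · subst h
      simp only [hB, sub_self, Complex.ofReal_zero, mul_zero, zero_mul, Complex.exp_zero, if_true]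
      rw [intervalIntegral.integral_const, Complex.real_smul, mul_one, Complex.norm_real,
        Real.norm_eq_abs, abs_of_nonneg (by linarith)]
    · simp only [hB]
      rw [if_neg h]
      obtain ⟨h1, h2⟩ := gap M m n hM hm hn h
      exact (osc a b _ h1).trans h2
  -- expansion
  have hexp : ∀ t : ℝ, ((‖∑ m ∈ s, c m * Complex.exp (I * Real.log m * (t : ℂ))‖ ^ 2 : ℝ) : ℂ) =
      ∑ m ∈ s, ∑ n ∈ s, (c m * (starRingEnd ℂ) (c n)) *
        Complex.exp (I * (Real.log m - Real.log n : ℝ) * (t : ℂ)) := by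
    intro t
    rw [← Complex.normSq_eq_norm_sq, ← Complex.mul_conj, map_sum, Finset.sum_mul_sum]
    refine Finset.sum_congr rfl fun m _ => Finset.sum_congr rfl fun n _ => ?_
    rw [map_mul, ← Complex.exp_conj]
    simp only [map_mul, Complex.conj_I, Complex.conj_ofReal]
    rw [show c m * Complex.exp (I * Real.log m * (t : ℂ)) *
      ((starRingEnd ℂ) (c n) * Complex.exp (-I * Real.log n * (t : ℂ))) =
      (c m * (starRingEnd ℂ) (c n)) * (Complex.exp (I * Real.log m * (t : ℂ)) *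
        Complex.exp (-I * Real.log n * (t : ℂ))) by ring, ← Complex.exp_add]
    congr 2
    push_cast
    ring
  have hint : ((∫ t in a..b, ‖∑ m ∈ s, c m * Complex.exp (I * Real.log m * (t : ℂ))‖ ^ 2 : ℝ) : ℂ) =
      ∑ m ∈ s, ∑ n ∈ s, (c m * (starRingEnd ℂ) (c n)) *
        ∫ t in a..b, Complex.exp (I * (Real.log m - Real.log n : ℝ) * (t : ℂ)) := by
    rw [← intervalIntegral.integral_ofReal]
    rw [intervalIntegral.integral_congr (g := fun t : ℝ => ∑ m ∈ s, ∑ n ∈ s,
      (c m * (starRingEnd ℂ) (c n)) *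
        Complex.exp (I * (Real.log m - Real.log n : ℝ) * (t : ℂ))) (fun t _ => hexp t)]
    rw [intervalIntegral.integral_finsetSum]
    · refine Finset.sum_congr rfl fun m _ => ?_
      rw [intervalIntegral.integral_finsetSum]
      · refine Finset.sum_congr rfl fun n _ => ?_
        rw [intervalIntegral.integral_const_mul]
      · intro n _
        apply Continuous.intervalIntegrable
        fun_prop
    · intro m _
      apply Continuous.intervalIntegrable
      fun_prop
  have h0 : 0 ≤ ∫ t in a..b, ‖∑ m ∈ s, c m * Complex.exp (I * Real.log m * (t : ℂ))‖ ^ 2 :=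
    intervalIntegral.integral_nonneg hab fun t _ => by positivity
  calc ∫ t in a..b, ‖∑ m ∈ s, c m * Complex.exp (I * Real.log m * (t : ℂ))‖ ^ 2
      = ‖((∫ t in a..b, ‖∑ m ∈ s, c m * Complex.exp (I * Real.log m * (t : ℂ))‖ ^ 2 : ℝ) : ℂ)‖ := by
        rw [Complex.norm_real, Real.norm_eq_abs, abs_of_nonneg h0]
    _ ≤ ∑ m ∈ s, ∑ n ∈ s, (‖c m‖ * ‖c n‖) * B m n := by
        rw [hint]
        refine (norm_sum_le _ _).trans (Finset.sum_le_sum fun m hm => ?_)
        refine (norm_sum_le _ _).trans (Finset.sum_le_sum fun n hn => ?_)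
        rw [norm_mul, norm_mul, RCLike.norm_conj]
        exact mul_le_mul_of_nonneg_left (hker m hm n hn) (by positivity)
    _ ≤ ∑ m ∈ s, ∑ n ∈ s, ((‖c m‖ ^ 2 * B m n) / 2 + (‖c n‖ ^ 2 * B m n) / 2) := by
        refine Finset.sum_le_sum fun m _ => Finset.sum_le_sum fun n _ => ?_
        have := hBnn m n
        nlinarith [mul_nonneg (sq_nonneg (‖c m‖ - ‖c n‖)) this]
    _ = ∑ m ∈ s, ‖c m‖ ^ 2 * ∑ n ∈ s, B m n := by
        have e1 : ∑ m ∈ s, ∑ n ∈ s, (‖c n‖ ^ 2 * B m n) / 2 =
            ∑ m ∈ s, ∑ n ∈ s, (‖c m‖ ^ 2 * B m n) / 2 := by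
          rw [Finset.sum_comm]
          refine Finset.sum_congr rfl fun m _ => Finset.sum_congr rfl fun n _ => ?_
          rw [hBsymm]
        simp only [Finset.sum_add_distrib]
        rw [e1, ← Finset.sum_add_distrib]
        refine Finset.sum_congr rfl fun m _ => ?_
        rw [← Finset.sum_add_distrib, Finset.mul_sum]
        refine Finset.sum_congr rfl fun n _ => ?_
        ring
    _ ≤ ∑ m ∈ s, ‖c m‖ ^ 2 * ((b - a) + 16 * (M * Real.log (2 * M))) := by
        refine Finset.sum_le_sum fun m hm => mul_le_mul_of_nonneg_left ?_ (by positivity)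
        have e1 : ∑ n ∈ s, B m n = ∑ n ∈ s, ((if m = n then (b - a) else 0) +
            4 * M * (if m = n then (0 : ℝ) else |(m : ℝ) - n|⁻¹)) := by
          refine Finset.sum_congr rfl fun n _ => ?_
          simp only [hB]
          split_ifs <;> ring
        rw [e1, Finset.sum_add_distrib, Finset.sum_ite_eq, if_pos hm, ← Finset.mul_sum]
        have := mul_le_mul_of_nonneg_left (row M m hM hm) (by positivity : (0 : ℝ) ≤ 4 * M)
        nlinarith
    _ = ((b - a) + 16 * (M * Real.log (2 * M))) * ∑ m ∈ s, ‖c m‖ ^ 2 := by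
        rw [← Finset.sum_mul, mul_comm]

/-- the dual inequality -/
theorem core (a b : ℝ) (M : ℕ) (R : ℝ → ℂ) (hab : a ≤ b) (hM : 1 ≤ M) (hR : Continuous R) :
    ∑ m ∈ Finset.Icc M (2 * M), ‖∫ t in a..b, R t * (m : ℂ) ^ (I * (t : ℂ))‖ ^ 2 ≤
      16 * ((b - a) + M * Real.log (2 * M)) * ∫ t in a..b, ‖R t‖ ^ 2 := by
  set s := Finset.Icc M (2 * M) with hs
  have hM0 : (1 : ℝ) ≤ M := by exact_mod_cast hM
  have hlog : 0 < Real.log (2 * M) := Real.log_pos (by linarith)
  have hcp : ∀ m ∈ s, ∀ t : ℝ, (m : ℂ) ^ (I * (t : ℂ)) = Complex.exp (I * Real.log m * (t : ℂ)) := by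
    intro m hm t
    have hm1 : 1 ≤ m := le_trans hM (Finset.mem_Icc.1 hm).1
    have hm0 : (m : ℂ) ≠ 0 := by
      have : m ≠ 0 := by omega
      exact_mod_cast this
    rw [Complex.cpow_def_of_ne_zero hm0, Complex.natCast_log]
    congr 1
    ring
  set v : ℕ → ℂ := fun m => ∫ t in a..b, R t * Complex.exp (I * Real.log m * (t : ℂ)) with hv
  have e0 : ∑ m ∈ s, ‖∫ t in a..b, R t * (m : ℂ) ^ (I * (t : ℂ))‖ ^ 2 = ∑ m ∈ s, ‖v m‖ ^ 2 := by
    refine Finset.sum_congr rfl fun m hm => ?_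
    simp only [hv]
    rw [intervalIntegral.integral_congr (g := fun t : ℝ => R t *
      Complex.exp (I * Real.log m * (t : ℂ))) (fun t _ => by rw [hcp m hm t])]
  rw [e0]
  set A := ∑ m ∈ s, ‖v m‖ ^ 2 with hA
  set F : ℝ → ℂ := fun t => ∑ m ∈ s, (starRingEnd ℂ) (v m) *
    Complex.exp (I * Real.log m * (t : ℂ)) with hF
  have hFc : Continuous F := by
    simp only [hF]
    fun_prop
  have hAF : (A : ℂ) = ∫ t in a..b, R t * F t := by
    have : ∀ t : ℝ, R t * F t = ∑ m ∈ s, (starRingEnd ℂ) (v m) *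
        (R t * Complex.exp (I * Real.log m * (t : ℂ))) := by
      intro t
      simp only [hF]
      rw [Finset.mul_sum]
      refine Finset.sum_congr rfl fun m _ => ?_
      ring
    simp only [this]
    rw [intervalIntegral.integral_finsetSum]
    · simp only [intervalIntegral.integral_const_mul]
      rw [hA, Complex.ofReal_sum]
      refine Finset.sum_congr rfl fun m _ => ?_
      rw [show (∫ t in a..b, R t * Complex.exp (I * Real.log m * (t : ℂ))) = v m from rfl]
      rw [mul_comm, Complex.mul_conj, Complex.normSq_eq_norm_sq]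
    · intro m _
      apply Continuous.intervalIntegrable
      fun_prop
  have hA0 : 0 ≤ A := Finset.sum_nonneg fun m _ => by positivity
  set K : ℝ := (b - a) + 16 * (M * Real.log (2 * M)) with hK
  have hK0 : 0 < K := by
    have : 0 < (M : ℝ) * Real.log (2 * M) := by positivity
    have h2 : 0 ≤ b - a := by linarith
    rw [hK]
    linarith
  have hmsq : ∫ t in a..b, ‖F t‖ ^ 2 ≤ K * A := by
    have := msq a b M hab hM (fun m => (starRingEnd ℂ) (v m))
    simp only [RCLike.norm_conj] at this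
    exact this
  have h1 : A ≤ ∫ t in a..b, (K / 2 * ‖R t‖ ^ 2 + 1 / (2 * K) * ‖F t‖ ^ 2) := by
    calc A = ‖(A : ℂ)‖ := by rw [Complex.norm_real, Real.norm_eq_abs, abs_of_nonneg hA0]
      _ = ‖∫ t in a..b, R t * F t‖ := by rw [hAF]
      _ ≤ ∫ t in a..b, ‖R t * F t‖ := intervalIntegral.norm_integral_le_integral_norm hab
      _ ≤ ∫ t in a..b, (K / 2 * ‖R t‖ ^ 2 + 1 / (2 * K) * ‖F t‖ ^ 2) := by
          refine intervalIntegral.integral_mono_on hab ?_ ?_ ?_
          · apply Continuous.intervalIntegrable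
            fun_prop
          · apply Continuous.intervalIntegrable
            fun_prop
          · intro t _
            rw [norm_mul]
            have h2 : K / 2 * ‖R t‖ ^ 2 + 1 / (2 * K) * ‖F t‖ ^ 2 - ‖R t‖ * ‖F t‖ =
                (K * ‖R t‖ - ‖F t‖) ^ 2 / (2 * K) := by
              field_simp
              ring
            have h3 : 0 ≤ (K * ‖R t‖ - ‖F t‖) ^ 2 / (2 * K) := by positivity
            linarith
  rw [intervalIntegral.integral_add (by apply Continuous.intervalIntegrable; fun_prop)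
    (by apply Continuous.intervalIntegrable; fun_prop), intervalIntegral.integral_const_mul,
    intervalIntegral.integral_const_mul] at h1
  have h2 : 1 / (2 * K) * ∫ t in a..b, ‖F t‖ ^ 2 ≤ A / 2 := by
    calc 1 / (2 * K) * ∫ t in a..b, ‖F t‖ ^ 2 ≤ 1 / (2 * K) * (K * A) :=
          mul_le_mul_of_nonneg_left hmsq (by positivity)
      _ = A / 2 := by field_simp
  have h3 : A ≤ K * ∫ t in a..b, ‖R t‖ ^ 2 := by linarith
  have h4 : 0 ≤ ∫ t in a..b, ‖R t‖ ^ 2 :=
    intervalIntegral.integral_nonneg hab fun t _ => by positivity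
  refine h3.trans (mul_le_mul_of_nonneg_right ?_ h4)
  rw [hK]
  have h5 : 0 ≤ b - a := by linarith
  linarith

/-- MVB: dual mean value theorem for a dyadic block, with `C = 16` -/
theorem t_MVB : Pool.Agent.TH612.GS.S_MVB :=
  ⟨16, by norm_num, fun a b M R hab hM hR => core a b M R hab hM hR⟩

end

end Pool.Agent.TH751.GF
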